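import Mathlib
import Pool.Agent.P.MP_843a88_gt.Space

set_option autoImplicit false

namespace Pool.Agent.Results.MP_843a88_gt.MeasuresNotCCC

/-- There is a compact Hausdorff space with a point that avoids Radon probability measures
but does not avoid ccc subspaces. -/
theorem result : ∃ (X : Type) (_ : TopologicalSpace X) (_ : CompactSpace X) (_ : T2Space X)
    (_ : MeasurableSpace X) (_ : BorelSpace X) (x : X),
    (∀ μ : MeasureTheory.Measure X, MeasureTheory.IsProbabilityMeasure μ →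
      (∀ B : Set X, MeasurableSet B →
        μ B = ⨆ (K : Set X) (_ : K ⊆ B) (_ : IsCompact K), μ K) →
      (∀ B : Set X, MeasurableSet B →
        μ B = ⨅ (U : Set X) (_ : B ⊆ U) (_ : IsOpen U), μ U) →
      μ {x} = 0 → x ∉ ⋂₀ {C : Set X | IsClosed C ∧ μ C = 1}) ∧
    ¬ (∀ Y : Set X,
      (∀ 𝒰 : Set (Set Y), (∀ U ∈ 𝒰, IsOpen U ∧ U.Nonempty) → 𝒰.PairwiseDisjoint id →
        𝒰.Countable) → x ∉ Y → x ∉ closure Y) :=
  Pool.Agent.P.MP_843a88_gt.main

end Pool.Agent.Results.MP_843a88_gt.MeasuresNotCCC
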